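import Mathlib
import Pool.Agent.Zk50.IE.Main

/-!
If a system `A` is an isometric extension of a subsystem `F`, then it is an isometric extension of
every intermediate subsystem `F ⊆ G ⊆ A`.
-/

set_option autoImplicit false
open scoped InnerProductSpace ENNReal NNReal
open Pool.Agent.Zk50.IE

namespace Pool.Agent.Results.MP_286868_an.IntermediateIsometric

/-- Let `(A, μ, α)` be a system (a von Neumann algebra `A` with a faithful normal tracial state `μ`
and an automorphism `α` preserving `μ`) in its GNS representation on `H`, with cyclic vector `Ω`,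
unitary `U` and modular conjugation `J`, and let `F ⊆ G ⊆ A` be subsystems. Let `τF` and `τG` be the
traces of the basic constructions `⟨A, e_F⟩` and `⟨A, e_G⟩`. If `A` is an isometric extension of `F`,
then `A` is an isometric extension of `G`. -/
theorem result {H : Type*} [NormedAddCommGroup H] [InnerProductSpace ℂ H] [CompleteSpace H]
    {A F G : VonNeumannAlgebra H} {Ω : H} {U : H ≃ₗᵢ[ℂ] H} {J : H ≃ₗᵢ⋆[ℂ] H}
    (hA : IsSystem A Ω U J) (hF : IsSubsystem A U F) (hG : IsSubsystem A U G)
    (hFG : ∀ a ∈ F, a ∈ G) {τF τG : (H →L[ℂ] H) → ℝ≥0∞}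
    (hτF : IsBasicTrace A F Ω τF) (hτG : IsBasicTrace A G Ω τG)
    (h : IsIsometric F Ω U J τF) : IsIsometric G Ω U J τG :=
  main hA hF hG hFG hτF hτG h

end Pool.Agent.Results.MP_286868_an.IntermediateIsometric
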